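import Pool.Agent.Helper35.XT.Pre

/-! Statements of packages: further theorems in the models of `FiftyFivePatterns`. -/

namespace Pool.Agent.Helper35.XT

open Set Module Pool.Agent.Helper35.EM Pool.Agent.Helper56.SA

/-- conditions on the base for further transcendence statements: `e ^ 2` and `p ^ 2` are not first
coordinates of pairs of the base, and if `√n p` is one, then its exponential is generic over `p` -/
structure XH (P0 : Submodule ℚ (ℂ × ℂ)) (e p : ℝ) : Prop where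
  pn : (p : ℂ) ∉ M.closure ∅
  ee : ∀ z, (((e : ℂ) ^ 2), z) ∉ P0
  pp : ∀ z, (((p : ℂ) ^ 2), z) ∉ P0
  np : ∀ n : ℕ, 1 ≤ n → ∀ z, ((Real.sqrt n : ℂ) * p, z) ∈ P0 →
    Complex.exp z ∉ M.closure {(p : ℂ)}

/-- Package XC (`mem_PP`, then `l2` / `quad` of SA with `b = t 2`, `b = t 1`, `b = t 0`). -/
def S_XC : Prop := ∀ t : ℕ → ℝ, (FreeR fun n => (t n : ℂ)) → ∀ y : Fin 5 → ℝ,
  XH (PP ![1, t 2, t 0, t 0 * t 2, t 1 * t 2] y (t 1)) (t 0) (t 1)

/-- Package XA: here `p = q / t 0`; after `l2` with `b = t 1` the constant part is a Laurent polynomial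
in `t 0`, multiply by `t 0 ^ 2` (polynomial of degree four in `t 0` with algebraic coefficients). -/
def S_XA : Prop := ∀ t : ℕ → ℝ, (FreeR fun n => (t n : ℂ)) → ∀ q : ℝ, 0 < q →
  (q : ℂ) ∈ M.closure ∅ → ∀ y : Fin 5 → ℝ,
  XH (PP ![1, t 1, t 0, t 0 * (t 1 - 1), q / t 0 * (t 1 - 1)] y (q / t 0)) (t 0) (q / t 0)

/-- Package XB: here `p = s - t 0`, `s` rational, and the pair `(√n p, z)` is in the base if `n` is a
square: `z = √n (s log t 0 - log t 2)`, and `t 2` is generic over `t 0` and `p`. -/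
def S_XB : Prop := ∀ t : ℕ → ℝ, (FreeR fun n => (t n : ℂ)) → ∀ (s : ℚ) (u Y : ℝ), 0 < s - t 0 →
  u = t 0 ∨ u = s - t 0 →
  XH (PP ![1, t 1, t 0, u * t 1] ![t 0, s - t 0, t 2, Y] (s - t 0)) (t 0) (s - t 0)

/-- Package XD: here `p = s - t 0`, `s` algebraic and irrational; `√n p` is not a first coordinate. -/
def S_XD : Prop := ∀ t : ℕ → ℝ, (FreeR fun n => (t n : ℂ)) → ∀ s : ℝ, (s : ℂ) ∈ M.closure ∅ →
  Irrational s → ∀ y : Fin 5 → ℝ,
  XH (PP ![1, t 1, t 0, t 0 * t 1, (s - t 0) * t 1] y (s - t 0)) (t 0) (s - t 0)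

end Pool.Agent.Helper35.XT
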