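import Pool.Agent.Helper35.XT.Wit
import Pool.Agent.Helper35.XT.Stm
import Pool.Agent.Helper22.GF.AI

/-! Further theorems in the field of a base. -/

set_option autoImplicit false

namespace Pool.Agent.Helper35.XT

open Pool.Agent.Helper35.EM Pool.Agent.Helper56.EM Pool.Agent.Helper56.SA Module Submodule Set
  ComplexConjugate

open Pool.Agent.Helper56.SA (ExpField)

/-- Further theorems which hold in the field `F`: Nesterenko's theorem for `π` and `exp (π √n)`; the numbers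
`exp (e ^ 2)` and `exp (π ^ 2)` are transcendental; Schanuel's inequality over a space `X` of
dimension at most `6`. -/
structure Extra (F : ExpField) : Prop where
  nest : ∀ n : ℕ, 1 ≤ n → AlgebraicIndependent ℚ ![(F.p : ℂ), F.E ((Real.sqrt n : ℂ) * F.p)]
  ee : Transcendental ℚ (F.E ((F.e : ℂ) ^ 2))
  pp : Transcendental ℚ (F.E ((F.p : ℂ) ^ 2))
  schanuel : ∃ X : Submodule ℚ ℂ, FiniteDimensional ℚ X ∧ finrank ℚ X ≤ 6 ∧ (∀ x ∈ X, x ∈ F.K) ∧
    ∀ (n : ℕ) (z : Fin n → ℂ), (∀ i, z i ∈ F.K) → LinearIndependent ℚ (fun i => X.mkQ (z i)) →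
      ∃ f : Fin n → ℂ, (∀ i, f i ∈ range z ∪ range fun j => F.E (z j)) ∧
        AlgebraicIndependent (IntermediateField.adjoin ℚ ((X : Set ℂ) ∪ F.E '' X)) f

theorem pair_indep {a b : ℂ} (ha : a ∉ M.closure ∅) (hb : b ∉ M.closure {a}) :
    AlgebraicIndependent ℚ ![a, b] := by
  apply algInd_of_rk
  have h := two_le_rk (V := range ![a, b]) (x := a) (y := b) ⟨0, rfl⟩ ⟨1, rfl⟩ ha hb
  exact_mod_cast h

theorem extra_of {F : ExpField} {P0 : Submodule ℚ (ℂ × ℂ)} {e p : ℝ} (hW : Wit F P0)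
    (hX : XH P0 e p) (he : F.e = e) (hp : F.p = p) (hd : finrank ℚ P0 ≤ 6)
    (hE : ∀ q ∈ P0, F.E q.1 = Complex.exp q.2) (hek : (e : ℂ) ∈ co P0)
    (hpk : 2 * Complex.I * (p : ℂ) ∈ co P0) : Extra F := by
  have hecl : (e : ℂ) ∈ M.closure (co P0) := cl_self hek
  have hpcl : (p : ℂ) ∈ M.closure (co P0) := by
    have h1 : (2 * Complex.I : ℂ) * (p : ℂ) ∈ M.closure (co P0) := cl_self hpk
    rwa [cl_mul_iff (two_I_mem _) two_I_ne] at h1
  have heK : (e : ℂ) ∈ F.K := he ▸ F.e_mem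
  have hpK : (p : ℂ) ∈ F.K := hp ▸ F.p_mem
  have halg : ∀ z : ℂ, z ∈ M.closure ∅ → z ∈ F.K := fun z hz =>
    F.closed z ((mem_cl_empty.1 hz).tower_top _)
  have htr : ∀ {a : ℂ}, a ∉ M.closure (co P0) → Transcendental ℚ a := by
    intro a ha h
    exact ha (cl_empty_le (mem_cl_empty.2 h))
  have hsq : ∀ n : ℕ, (Real.sqrt n : ℂ) ∈ M.closure ∅ := by
    intro n
    apply cl_of_pow (n := 2) two_ne_zero
    rw [← Complex.ofReal_pow, Real.sq_sqrt (Nat.cast_nonneg n)]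
    have := cl_ratCast ∅ (n : ℚ)
    simpa using this
  refine ⟨?_, ?_, ?_, ?_⟩
  · intro n hn
    rw [hp]
    refine pair_indep hX.pn ?_
    by_cases h : ∃ z, ((Real.sqrt n : ℂ) * p, z) ∈ P0
    · obtain ⟨z, hz⟩ := h
      have h1 : F.E ((Real.sqrt n : ℂ) * p) = Complex.exp z := hE _ hz
      rw [h1]
      exact hX.np n hn z hz
    · push Not at h
      have h1 := hW.gen (F.K.mul_mem (halg _ (hsq n)) hpK)
        (cl_mul (cl_empty_le (hsq n)) hpcl) h
      intro h2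
      apply h1
      have h3 : M.closure {(p : ℂ)} ⊆ M.closure (co P0) := cl_le fun x hx => by
        rw [Set.mem_singleton_iff] at hx; rw [hx]; exact hpcl
      exact h3 h2
  · rw [he]
    exact htr (hW.gen (F.K.pow_mem heK 2) (cl_pow 2 hecl) hX.ee)
  · rw [hp]
    exact htr (hW.gen (F.K.pow_mem hpK 2) (cl_pow 2 hpcl) hX.pp)
  · obtain ⟨h1, h2, h3, h4, h5, h6⟩ := hW.rk
    refine ⟨P0.map (LinearMap.fst ℚ ℂ ℂ), h1, h2.trans hd, h3, ?_⟩
    intro n z hz hi
    have h7 := h6 n z hz hi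
    obtain ⟨f, -, hf1, hf2⟩ := Pool.Agent.Helper22.GF.ai2 (co P0)
      (range z ∪ range fun j => F.E (z j)) h5 n h7
    refine ⟨f, hf1, ?_⟩
    rw [← h4]
    exact hf2

theorem finrank_PP {m : ℕ} (x y : Fin (m + 1) → ℝ) (p : ℝ) : finrank ℚ (PP x y p) ≤ m + 2 := by
  have h := finrank_range_le_card (R := ℚ) (vv x y p)
  have h2 : Fintype.card (Fin (m + 1) ⊕ Unit) = m + 2 := by simp
  rw [h2] at h
  exact h

end Pool.Agent.Helper35.XT
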