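import Pool.Agent.Helper56.SA.Nbs

/-! Initial segments of a free sequence (copy from `Helper56/SA/CasC.lean`). -/

set_option autoImplicit false

namespace Pool.Agent.Helper35.XT

open Set Module Pool.Agent.Helper35.EM Pool.Agent.Helper56.EM Pool.Agent.Helper56.SA

abbrev Fn (t : ℕ → ℝ) (n : ℕ) : Set ℂ := (fun k => (t k : ℂ)) '' Iio n

theorem Fn_mem {t : ℕ → ℝ} {k n : ℕ} (h : k < n) : (t k : ℂ) ∈ M.closure (Fn t n) :=
  cl_self ⟨k, h, rfl⟩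

theorem Fn_mono {t : ℕ → ℝ} {m n : ℕ} (h : m ≤ n) {z : ℂ} (hz : z ∈ M.closure (Fn t m)) :
    z ∈ M.closure (Fn t n) :=
  cl_mono (image_mono fun _ hk => lt_of_lt_of_le hk h) hz

theorem Fn_not {t : ℕ → ℝ} (ht : FreeR fun n => (t n : ℂ)) {k n : ℕ} (h : n ≤ k) :
    (t k : ℂ) ∉ M.closure (Fn t n) := fun hh => ht.free k (Fn_mono h hh)

theorem Fn_zero (t : ℕ → ℝ) : Fn t 0 = ∅ := by ext; simp

theorem Fn_one (t : ℕ → ℝ) : Fn t 1 = {(t 0 : ℂ)} := by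
  rw [Fn, show (Iio 1 : Set ℕ) = {0} by ext k; simp]
  simp

theorem Fn_two (t : ℕ → ℝ) : Fn t 2 = {(t 0 : ℂ), (t 1 : ℂ)} := by
  rw [Fn, show (Iio 2 : Set ℕ) = {0, 1} by
    ext k
    simp only [Set.mem_Iio, Set.mem_insert_iff, Set.mem_singleton_iff]
    omega]
  rw [Set.image_pair]

theorem Fn_not_empty {t : ℕ → ℝ} (ht : FreeR fun n => (t n : ℂ)) (k : ℕ) :
    (t k : ℂ) ∉ M.closure ∅ := fun hh => Fn_not ht (Nat.zero_le k) (cl_empty_le hh)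

theorem pos_t {t : ℕ → ℝ} (ht : FreeR fun n => (t n : ℂ)) (k : ℕ) : 0 < t k := pos_of ht k

end Pool.Agent.Helper35.XT
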