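import Pool.Agent.Helper35.XT.XC

/-! Package XB. -/

set_option autoImplicit false

namespace Pool.Agent.Helper35.XT

open Set Module Pool.Agent.Helper35.EM Pool.Agent.Helper56.EM Pool.Agent.Helper56.SA

theorem xb : S_XB := by
  intro t ht s u Y hp0 hu
  have hq : ∀ (r : ℚ) (A : Set ℂ), (r : ℂ) ∈ M.closure A := fun r A => cl_ratCast A r
  have h2I : ∀ A : Set ℂ, (2 * Complex.I : ℂ) ∈ M.closure A := fun A => two_I_mem A
  have n0 : (t 0 : ℂ) ∈ M.closure (Fn t 1) := Fn_mem (by norm_num)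
  have hucl : (u : ℂ) ∈ M.closure (Fn t 1) := by
    rcases hu with rfl | rfl
    · exact n0
    · push_cast; exact cl_sub (hq _ _) n0
  have hun : (u : ℂ) ∉ M.closure ∅ := by
    rcases hu with rfl | rfl
    · exact Fn_not_empty ht 0
    · intro h
      apply Fn_not_empty ht 0
      have : (t 0 : ℂ) = (s : ℂ) - (((s : ℝ) - t 0 : ℝ) : ℂ) := by push_cast; ring
      rw [this]
      exact cl_sub (hq _ _) h
  have key : ∀ w z : ℂ, w ∈ M.closure (Fn t 1) →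
      (w, z) ∈ PP ![1, t 1, t 0, u * t 1] ![t 0, s - t 0, t 2, Y] (s - t 0) →
      ∃ (α : Fin 4 → ℚ) (γ : ℚ),
        (α 0 : ℂ) + α 2 * t 0 + γ * (2 * Complex.I) * (s - t 0) - w = 0 ∧
        z = α 0 * ((Real.log (t 0) : ℝ) : ℂ) + α 2 * ((Real.log (t 2) : ℝ) : ℂ) +
          γ * (2 * (Real.pi : ℂ) * Complex.I) := by
    intro w z hw h
    obtain ⟨α, γ, h1, h2⟩ := mem_PP h
    rw [Fin.sum_univ_four] at h1 h2
    have h1' : w = (α 0 : ℂ) * ((1 : ℝ) : ℂ) + (α 1 : ℂ) * ((t 1 : ℝ) : ℂ) +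
      (α 2 : ℂ) * ((t 0 : ℝ) : ℂ) + (α 3 : ℂ) * ((u * t 1 : ℝ) : ℂ) +
      γ * (2 * Complex.I * ((s - t 0 : ℝ) : ℂ)) := h1
    have h2' : z = (α 0 : ℂ) * ((Real.log (t 0) : ℝ) : ℂ) +
      (α 1 : ℂ) * ((Real.log (s - t 0) : ℝ) : ℂ) + (α 2 : ℂ) * ((Real.log (t 2) : ℝ) : ℂ) +
      (α 3 : ℂ) * ((Real.log Y : ℝ) : ℂ) + γ * (2 * (Real.pi : ℂ) * Complex.I) := h2
    push_cast at h1'
    obtain ⟨k1, k2⟩ := l2 (s := Fn t 1) (b := (t 1 : ℂ))
      (u := α 0 + α 2 * t 0 + γ * (2 * Complex.I) * (s - t 0) - w)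
      (v := α 1 + α 3 * u) (Fn_not ht le_rfl)
      (cl_sub (cl_add (cl_add (hq _ _) (cl_mul (hq _ _) n0))
        (cl_mul (cl_mul (hq _ _) (h2I _)) (cl_sub (hq _ _) n0))) hw)
      (cl_add (hq _ _) (cl_mul (hq _ _) hucl))
      (by rw [h1']; ring)
    obtain ⟨k3, k4⟩ := l2 (s := ∅) (b := (u : ℂ)) (u := α 1) (v := α 3) hun (hq _ _) (hq _ _) k2
    refine ⟨α, γ, k1, ?_⟩
    rw [h2', k3, k4]
    ring
  have hpn : (((s : ℝ) - t 0 : ℝ) : ℂ) ∉ M.closure ∅ := by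
    intro h
    apply Fn_not_empty ht 0
    have : (t 0 : ℂ) = (s : ℂ) - (((s : ℝ) - t 0 : ℝ) : ℂ) := by push_cast; ring
    rw [this]
    exact cl_sub (hq _ _) h
  refine ⟨hpn, ?_, ?_, ?_⟩
  · intro z hz
    obtain ⟨α, γ, h, -⟩ := key _ z (cl_pow 2 n0) hz
    have h3 := quad (Fn_not_empty ht 0) (hq (-1) ∅)
      (cl_sub (hq (α 2) ∅) (cl_mul (hq γ _) (h2I _)))
      (cl_add (hq (α 0) ∅) (cl_mul (cl_mul (hq γ _) (h2I _)) (hq s _)))
      (by push_cast; linear_combination h)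
    have h4 := h3.1
    norm_num at h4
  · intro z hz
    have hz' : (((s : ℂ) - t 0) ^ 2, z) ∈
        PP ![1, t 1, t 0, u * t 1] ![t 0, s - t 0, t 2, Y] (s - t 0) := by
      have e : (((s : ℝ) - t 0 : ℝ) : ℂ) = (s : ℂ) - t 0 := by push_cast; rfl
      rw [← e]; exact hz
    obtain ⟨α, γ, h, -⟩ := key _ z (cl_pow 2 (cl_sub (hq _ _) n0)) hz'
    have h3 := quad (Fn_not_empty ht 0) (hq (-1) ∅)
      (cl_add (cl_sub (hq (α 2) ∅) (cl_mul (hq γ _) (h2I _))) (cl_mul (hq 2 _) (hq s _)))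
      (cl_sub (cl_add (hq (α 0) ∅) (cl_mul (cl_mul (hq γ _) (h2I _)) (hq s _)))
        (cl_pow 2 (hq s _)))
      (by push_cast; linear_combination h)
    have h4 := h3.1
    norm_num at h4
  · intro n hn z hz
    have hz' : ((Real.sqrt n : ℂ) * ((s : ℂ) - t 0), z) ∈
        PP ![1, t 1, t 0, u * t 1] ![t 0, s - t 0, t 2, Y] (s - t 0) := by
      have e : (((s : ℝ) - t 0 : ℝ) : ℂ) = (s : ℂ) - t 0 := by push_cast; rfl
      rw [← e]; exact hz
    obtain ⟨α, γ, h, hzz⟩ := key _ z (cl_mul (sqrt_cl n _) (cl_sub (hq _ _) n0)) hz'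
    obtain ⟨k1, k2⟩ := l2 (s := ∅) (b := (t 0 : ℂ))
      (u := α 0 + γ * (2 * Complex.I) * s - (Real.sqrt n : ℂ) * s)
      (v := α 2 - γ * (2 * Complex.I) + (Real.sqrt n : ℂ)) (Fn_not_empty ht 0)
      (cl_sub (cl_add (hq _ _) (cl_mul (cl_mul (hq _ _) (h2I _)) (hq _ _)))
        (cl_mul (sqrt_cl n _) (hq _ _)))
      (cl_add (cl_sub (hq _ _) (cl_mul (hq _ _) (h2I _))) (sqrt_cl n _))
      (by linear_combination h)
    have r2 := congrArg Complex.re k2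
    simp at r2
    have hpos : (0 : ℝ) < Real.sqrt n := Real.sqrt_pos.2 (by exact_mod_cast hn)
    have hα2 : α 2 ≠ 0 := by
      intro h0
      rw [h0] at r2
      simp at r2
      linarith
    -- the exponential is generic over `p`
    intro hcl
    have hp1 : M.closure {(((s : ℝ) - t 0 : ℝ) : ℂ)} ⊆ M.closure (Fn t 1) := cl_le fun x hx => by
      rw [Set.mem_singleton_iff] at hx; rw [hx]
      push_cast; exact cl_sub (hq _ _) n0
    have h5 := hp1 hcl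
    have h6 : Complex.exp ((α 2) • ((Real.log (t 2) : ℝ) : ℂ) +
        ((α 0) • ((Real.log (t 0) : ℝ) : ℂ) + γ • (2 * (Real.pi : ℂ) * Complex.I))) ∈
        M.closure (Fn t 1) := by
      have e : (α 2) • ((Real.log (t 2) : ℝ) : ℂ) +
        ((α 0) • ((Real.log (t 0) : ℝ) : ℂ) + γ • (2 * (Real.pi : ℂ) * Complex.I)) = z := by
        rw [hzz]; simp only [Rat.smul_def]; ring
      rw [e]; exact h5
    have h7 : Complex.exp ((Real.log (t 2) : ℝ) : ℂ) ∈ M.closure (Fn t 1) := by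
      refine cl_exp_of_smul_add hα2 h6 (cl_exp_add (cl_exp_smul _ ?_) (cl_exp_smul _ ?_))
      · rw [exp_rlog (pos_t ht 0)]; exact n0
      · exact cl_exp_two_pi_I _
    rw [exp_rlog (pos_t ht 2)] at h7
    exact Fn_not ht (k := 2) (n := 1) (by norm_num) h7

end Pool.Agent.Helper35.XT
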